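import Pool.Agent.H27.HankE

/-! The diagonal Hankel determinants of the inverse Thue-Morse series indicate the Moser-de Bruijn set. -/

namespace Pool.Agent.Results.MP_be5c27_co.Full
open PowerSeries Finset Pool.Agent.H27.Hank

set_option maxHeartbeats 400000

/-- The Thue-Morse series over the field with two elements. -/
noncomputable def F : (ZMod 2)⟦X⟧ := PowerSeries.mk fun n => ((Nat.digits 2 n).sum : ZMod 2)

theorem F1 : IsUnit (coeff 1 F) := by simp [F]

/-- The coefficients of the compositional inverse of `F`, read as the integers `0` and `1`. -/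
noncomputable def c (n : ℕ) : ℤ := (coeff n (F.substInvOfIsUnit F1)).val

/-- The diagonal Hankel determinant. -/
noncomputable def H (n : ℕ) : ℤ := (Matrix.of fun i j : Fin n => c (n + i + j + 1)).det

/-- Sums of distinct powers of four. -/
def W (n : ℕ) : Prop := ∃ s : Finset ℕ, n = ∑ k ∈ s, 4 ^ k

theorem W_iff (n : ℕ) : W n ↔ n % 4 ≤ 1 ∧ W (n / 4) := by
  constructor
  · rintro ⟨s, rfl⟩
    obtain ⟨N, h⟩ := s.exists_nat_subset_range
    have e : ∑ k ∈ s, 4 ^ k = 4 * ∑ k ∈ (range N).filter (· + 1 ∈ s), 4 ^ k + if 0 ∈ s then 1 else 0 := by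
      rw [← inter_eq_right.mpr (h.trans (range_mono N.le_succ)), ← sum_ite_mem, sum_range_succ', sum_filter, mul_sum]
      simp [pow_succ', inter_eq_right.mpr (h.trans (range_mono N.le_succ))]
    exact ⟨by split_ifs at e <;> omega, (range N).filter (· + 1 ∈ s), by split_ifs at e <;> omega⟩
  · rintro ⟨h, s, e⟩
    have e' : ∑ k ∈ s.map ⟨Nat.succ, Nat.succ_injective⟩, 4 ^ k = 4 * (n / 4) := by simp [e, mul_sum, pow_succ']
    by_cases z : n % 4 = 0
    · exact ⟨_, by rw [e']; omega⟩
    · exact ⟨insert 0 (s.map ⟨Nat.succ, Nat.succ_injective⟩), by rw [sum_insert (by simp)]; omega⟩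

theorem W_dg (n : ℕ) : W n ↔ dg (n / 2) := by
  induction n using Nat.strong_induction_on with
  | _ n ih =>
    rcases n.eq_zero_or_pos with rfl | h
    · exact iff_of_true ⟨∅, rfl⟩ (by simp [dg])
    · rw [W_iff, dg_iff, ih _ (by omega), show n / 4 / 2 = n / 2 / 4 by omega]
      exact and_congr_left fun _ => by omega

theorem sgn {n : ℕ} (h : n % 4 ≤ 1) : Equiv.Perm.sign (Fin.revPerm : Equiv.Perm (Fin n)) = 1 := by
  rw [Equiv.Perm.sign_eq_prod_prod_Iio, prod_congr rfl fun j _ => prod_congr rfl fun i hi =>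
    if_neg (by simpa using (mem_Iio.mp hi).le)]
  simp only [prod_const, Fin.card_Iio, prod_pow_eq_pow_sum]
  rw [Fin.sum_univ_eq_sum_range fun i => i]
  have e := sum_range_id_mul_two n
  have : 4 ∣ n * (n - 1) := if z : n % 4 = 0 then Dvd.dvd.mul_right (by omega) _ else Dvd.dvd.mul_left (by omega) _
  exact Even.neg_one_pow (Nat.even_iff.mpr (by omega))

theorem HD (n : ℕ) : H n = Equiv.Perm.sign (Fin.revPerm : Equiv.Perm (Fin n)) * D q (2 * n + 1) n := by
  refine Eq.trans (congrArg Matrix.det ?_) (Matrix.det_permute' _ _)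
  ext i j
  have := j.2
  rw [Matrix.of_apply, c, inv_co (constantCoeff_substInvOfIsUnit F F1) (subst_substInvOfIsUnit_right F (by simp [F]) F1)]
  simp only [Matrix.submatrix_apply, Matrix.of_apply, id, Fin.revPerm_apply, Fin.val_rev, q, m, d]
  refine if_congr ?_ rfl rfl
  rw [and_iff_right (by omega)]
  congr! 1
  omega

theorem result (n : ℕ) : (W n → H n = 1) ∧ (¬W n → H n = 0) := by
  obtain ⟨-, -, -, -, -, -, -, -, -, -, -, -, -, -, h⟩ := all n
  rw [HD, h, m, d, show ((n : ℤ) / 2).toNat = n / 2 by omega]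
  refine ⟨fun w => ?_, fun w => ?_⟩
  · rw [sgn ((W_iff n).mp w).1, if_pos ⟨by omega, (W_dg n).mp w⟩]
    simp
  · rw [if_neg fun z => w ((W_dg n).mpr z.2), mul_zero]

end Pool.Agent.Results.MP_be5c27_co.Full
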